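import Pool.Agent.W558.WA.Stms
import Pool.Agent.W499.WD.F34

set_option autoImplicit false
set_option linter.unusedVariables false
set_option linter.unusedSectionVars false

universe u

namespace Pool.Agent.W347.WA

open Pool.Agent.W558 Pool.Agent.W499.WD

variable {k E : Type u} [Field k] [Field E] [Algebra k E] {O O' : Subalgebra k E} {x y z w : E}

/-- existence of the residual order -/
lemma exists_Rs {b : Set E} {u v X f : E} {r : ℕ}
    (h1 : ∀ θ ∈ Th O b, θ f * X ∈ O) (h2 : ∃ θ ∈ Th O b, ¬ Ox O u v (r + 1) (θ f * X)) :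
    ∃ c, c ≤ r ∧ Rs O b u v X f c := by
  classical
  have h3 : ∃ n, ∃ θ ∈ Th O b, ¬ Ox O u v (n + 1) (θ f * X) := ⟨r, h2⟩
  refine ⟨Nat.find h3, Nat.find_le h2, ?_, Nat.find_spec h3⟩
  intro θ hθ
  rcases Nat.eq_zero_or_pos (Nat.find h3) with h0 | h0
  · rw [h0]; exact Ox_zero (h1 θ hθ)
  · have h4 := Nat.find_min h3 (m := Nat.find h3 - 1) (by omega)
    push Not at h4
    have h5 := h4 θ hθ
    rwa [Nat.sub_add_cancel h0] at h5

lemma der_pow (θ : Derivation k E E) {A : E} (hx : θ x = A * x) (m : ℕ) :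
    θ (x ^ m) = (m : E) * A * x ^ m := by
  induction m with
  | zero => simp
  | succ m ih =>
    rw [pow_succ, Derivation.leibniz, ih, hx]
    simp only [smul_eq_mul]
    push_cast
    ring

/-- logarithmic derivation of a monomial -/
lemma der_mono (θ : Derivation k E E) {A B : E} (hx : θ x = A * x) (hy : θ y = B * y) (m n : ℕ) :
    θ (x ^ m * y ^ n) = ((m : E) * A + (n : E) * B) * (x ^ m * y ^ n) := by
  rw [Derivation.leibniz, der_pow θ hx, der_pow θ hy]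
  simp only [smul_eq_mul]
  ring

/-- the residual -/
lemma res_eq (θ : Derivation k E E) {A B : E} (hx : θ x = A * x) (hy : θ y = B * y) {f : E}
    {N M ρ : ℕ} {g : ℕ → E}
    (hq : f * (x ^ N * y ^ M) = ∑ j ∈ Finset.range (ρ + 1), g j * x ^ (ρ - j) * y ^ j) :
    θ f * (x ^ N * y ^ M) = ∑ j ∈ Finset.range (ρ + 1),
      (θ (g j) + ((((ρ - j : ℕ) : E) - N) * A + ((j : E) - M) * B) * g j) *
        x ^ (ρ - j) * y ^ j := by
  have h1 : θ (f * (x ^ N * y ^ M)) = θ f * (x ^ N * y ^ M) +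
      ((N : E) * A + (M : E) * B) * (f * (x ^ N * y ^ M)) := by
    rw [Derivation.leibniz, der_mono θ hx hy]
    simp only [smul_eq_mul]
    ring
  have h2 : θ f * (x ^ N * y ^ M) = θ (f * (x ^ N * y ^ M)) -
      ((N : E) * A + (M : E) * B) * (f * (x ^ N * y ^ M)) := by rw [h1]; ring
  rw [h2, hq, map_sum, Finset.mul_sum, ← Finset.sum_sub_distrib]
  refine Finset.sum_congr rfl fun j _ => ?_
  rw [mul_assoc, Derivation.leibniz, der_mono θ hx hy]
  simp only [smul_eq_mul]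
  ring

/-- unit coefficients -/
lemma unit_add (hloc : ∀ x y, NU O x → NU O y → NU O (x + y)) {g d : E} (hg : ¬ NU O g)
    (hd : NU O d) {e : E} (he : e ≠ 0) (he' : e⁻¹ ∈ O) : ¬ NU O (d + e * g) := by
  intro h
  have h1 : NU O (e * g) := by
    have := hloc _ _ h hd.neg
    simpa using this
  have h2 := h1.mul_left he'
  rw [← mul_assoc, inv_mul_cancel₀ he, one_mul] at h2
  exact hg h2

lemma int_unit (p : ℕ) [Fact p.Prime] [CharP k p] {n : ℤ} (hn : ¬ (p : ℤ) ∣ n) :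
    (n : E) ≠ 0 ∧ ((n : E))⁻¹ ∈ O := by
  have h1 : (n : k) ≠ 0 := by
    rw [Ne, CharP.intCast_eq_zero_iff k p]
    exact hn
  have h2 : (n : E) = algebraMap k E n := by simp
  refine ⟨?_, ?_⟩
  · rw [h2]
    exact (map_ne_zero _).2 h1
  · rw [h2, ← map_inv₀]
    exact O.algebraMap_mem _

/-- change of the monomial -/
lemma mon_eq (hx0 : x ≠ 0) {τ : E} (hyτ : y = x * τ) {N M ρ : ℕ} (hρ : ρ ≤ N + M) {Z : E}
    (h : z * (x ^ N * y ^ M) = x ^ ρ * Z) : z * (x ^ (N + M - ρ) * τ ^ M) = Z := by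
  have hxρ : x ^ ρ ≠ 0 := pow_ne_zero _ hx0
  apply mul_left_cancel₀ hxρ
  rw [← h, hyτ, mul_pow]
  have e1 : x ^ ρ * (z * (x ^ (N + M - ρ) * τ ^ M)) = z * ((x ^ ρ * x ^ (N + M - ρ)) * τ ^ M) := by
    ring
  rw [e1, ← pow_add, Nat.add_sub_cancel' hρ, pow_add]
  ring

theorem main (hder : WD_der.{u}) (hthb : WD_thb.{u}) (hod : WD_od.{u}) (hqp : WD_qp.{u})
    (hqs : WD_qs.{u}) (ht : WA_t.{u}) (hri : WA_ri.{u}) (hu : WA_u.{u}) : WA_a3.{u} := by
  intro p _ k E _ _ _ _ _ htr O O' x y f N M c d hpt hpt' h hq hDC hNM hc hd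
  obtain ⟨D1, D2, a1, a2, b1, b2, b3, b4, b5⟩ := hder k E htr O x y hpt h
  obtain ⟨-, t2, -⟩ := hthb k E htr O x y D1 D2 hpt h a1 a2 b1 b2 b3 b4 b5
  have t3 := (hthb k E htr O x y D1 D2 hpt h a1 a2 b1 b2 b3 b4 b5).2.2 O' hpt'
  have t4 := ((hthb k E htr O y x D2 D1 hpt (Par_symm h) a2 a1 b4 b3 b2 b1
    (fun D => by rw [add_comm]; exact b5 D)).2.2 O' hpt').2.1 hq
  have t5 := t3.2.2 hq
  obtain ⟨o1, o2, o3, o4, o5⟩ := hod k E htr O x y hpt h
  have hx := h.pu.mem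
  have hy := h.pv.mem
  have hx0 := h.u0
  have hy0 := h.v0
  have hle := hq.le
  have hpt0 := hpt
  obtain ⟨A0, hA0, hpA⟩ := hpt0
  have hloc := hpA.loc
  have hchar : CharP E p := charP_of_injective_algebraMap (algebraMap k E).injective p
  have hDC0 := hDC
  obtain ⟨w0, hw0, -, -⟩ := hDC0
  obtain ⟨ρ, g, w2, hρ, hg, -, hsum, hcase⟩ := ht p k E htr O x y hpt h (f - (w0 ^ p - w0)) N M hw0
  set a : E := w0 + w2 with ha
  have hwp : f - (w0 ^ p - w0) - (w2 ^ p - w2) = f - (a ^ p - a) := by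
    rw [ha, add_pow_char]; ring
  rw [hwp] at hsum
  set F : E := f - (a ^ p - a) with hF
  set X : E := x ^ N * y ^ M with hX
  have hFO : F * X ∈ O := by
    rw [hsum]
    exact O.sum_mem fun j _ => O.mul_mem (O.mul_mem (hg j) (O.pow_mem hx _)) (O.pow_mem hy _)
  obtain ⟨hR1, hR2⟩ := (hri p k E htr O x y f hpt h).2.1 N M c d hDC a hFO
  -- the residuals
  have ex1 : (x • D1) x = 1 * x := by simp [b1]
  have ey1 : (x • D1) y = 0 * y := by simp [b2]
  have ex2 : (y • D2) x = 0 * x := by simp [b3]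
  have ey2 : (y • D2) y = 1 * y := by simp [b4]
  have hG1 := res_eq (x • D1) ex1 ey1 hsum
  have hG2 := res_eq (y • D2) ex2 ey2 hsum
  set c1 : ℕ → E := fun j => (x • D1) (g j) +
    ((((ρ - j : ℕ) : E) - N) * 1 + ((j : E) - M) * 0) * g j with hc1
  set c2 : ℕ → E := fun j => (y • D2) (g j) +
    ((((ρ - j : ℕ) : E) - N) * 0 + ((j : E) - M) * 1) * g j with hc2
  have hc1' : ∀ j, j ≤ ρ → c1 j = x * D1 (g j) + (((ρ : ℤ) - j - N : ℤ) : E) * g j := by
    intro j hj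
    simp only [hc1, Derivation.smul_apply, smul_eq_mul]
    rw [Nat.cast_sub hj]
    push_cast
    ring
  have hc2' : ∀ j, c2 j = y * D2 (g j) + (((j : ℤ) - M : ℤ) : E) * g j := by
    intro j
    simp only [hc2, Derivation.smul_apply, smul_eq_mul]
    push_cast
    ring
  have hnat : ∀ n : ℕ, (n : E) ∈ O := fun n => by
    have := O.algebraMap_mem (n : k)
    simpa using this
  have hc1O : ∀ j, c1 j ∈ O := by
    intro j
    simp only [hc1, Derivation.smul_apply, smul_eq_mul]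
    refine O.add_mem (O.mul_mem hx (a1 _ (hg j))) (O.mul_mem ?_ (hg j))
    rw [mul_one, mul_zero, add_zero]
    exact O.sub_mem (hnat _) (hnat _)
  have hc2O : ∀ j, c2 j ∈ O := by
    intro j
    simp only [hc2, Derivation.smul_apply, smul_eq_mul]
    refine O.add_mem (O.mul_mem hy (a2 _ (hg j))) (O.mul_mem ?_ (hg j))
    rw [mul_one, mul_zero, zero_add]
    exact O.sub_mem (hnat _) (hnat _)
  have hMd1 : Md O x y ρ ((x • D1) F * X) := ⟨c1, hc1O, hG1⟩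
  have hMd2 : Md O x y ρ ((y • D2) F * X) := ⟨c2, hc2O, hG2⟩
  have ev : ∀ (α β Y : E), (α • (x • D1) + β • (y • D2)) F * Y =
      α * ((x • D1) F * Y) + β * ((y • D2) F * Y) := fun α β Y => by
    simp only [Derivation.add_apply, Derivation.smul_apply, smul_eq_mul]; ring
  have hu1 : ∀ j, j ≤ ρ → ¬ NU O (g j) → ¬ (p : ℤ) ∣ (ρ : ℤ) - j - N → ¬ NU O (c1 j) := by
    intro j hj hgj hp
    rw [hc1' j hj]
    obtain ⟨e1, e2⟩ := int_unit (O := O) p hp
    exact unit_add hloc hgj (h.pu.mul_right (a1 _ (hg j))) e1 e2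
  have hu2 : ∀ j, ¬ NU O (g j) → ¬ (p : ℤ) ∣ (j : ℤ) - M → ¬ NU O (c2 j) := by
    intro j hgj hp
    rw [hc2' j]
    obtain ⟨e1, e2⟩ := int_unit (O := O) p hp
    exact unit_add hloc hgj (h.pv.mul_right (a2 _ (hg j))) e1 e2
  have hm1 : x • D1 ∈ Th O (uo O x ∪ uo O y) :=
    (t2 _).2 ⟨1, O.one_mem, 0, O.zero_mem, by simp⟩
  have hm2 : y • D2 ∈ Th O (uo O x ∪ uo O y) :=
    (t2 _).2 ⟨0, O.zero_mem, 1, O.one_mem, by simp⟩
  have hNUox : ∀ {e : ℕ} {r : E}, 1 ≤ e → Ox O x y e r → NU O r := by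
    rintro e r he ⟨α, hα, β, hβ, rfl⟩
    refine hloc _ _ (h.pu.mul_left hα) (NU.mul_left ?_ hβ)
    obtain ⟨e', rfl⟩ := Nat.exists_eq_add_of_le' he
    rw [pow_succ]
    exact h.pv.mul_left (O.pow_mem hy _)
  have hNUox' : ∀ {e : ℕ} {r : E}, 1 ≤ e → Ox O y x e r → NU O r := by
    rintro e r he ⟨α, hα, β, hβ, rfl⟩
    refine hloc _ _ (h.pv.mul_left hα) (NU.mul_left ?_ hβ)
    obtain ⟨e', rfl⟩ := Nat.exists_eq_add_of_le' he
    rw [pow_succ]
    exact h.pu.mul_left (O.pow_mem hx _)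
  -- the order is positive
  have hρ1 : 1 ≤ ρ := by
    by_contra hρ0
    have hρ0' : ρ = 0 := by omega
    rcases hcase with hκ | ⟨j, hj, hgj, hnd⟩
    · omega
    have hj0 : j = 0 := by omega
    subst hj0
    have hs1 : (x • D1) F * X = c1 0 := by rw [hG1, hρ0']; simp [hc1, hρ0']
    have hs2 : (y • D2) F * X = c2 0 := by rw [hG2, hρ0']; simp [hc2, hρ0']
    by_cases hp1 : (p : ℤ) ∣ (ρ : ℤ) - (0 : ℕ) - N
    · have hp2 : ¬ (p : ℤ) ∣ ((0 : ℕ) : ℤ) - M := fun hh => hnd ⟨hp1, hh⟩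
      have hM1 : 1 ≤ M := by
        by_contra hM0
        have : M = 0 := by omega
        apply hp2
        rw [this]; simp
      have h1 := (hR2 hM1).1 _ hm2
      rw [hs2] at h1
      exact hu2 0 hgj hp2 (hNUox' (hd hM1) h1)
    · have hN1 : 1 ≤ N := by
        by_contra hN0
        have : N = 0 := by omega
        apply hp1
        rw [this, hρ0']; simp
      have h1 := (hR1 hN1).1 _ hm1
      rw [hs1] at h1
      exact hu1 0 hj hgj hp1 (hNUox (hc hN1) h1)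
  have hρc : 1 ≤ N → ρ ≤ c := by
    intro hN1
    by_contra hlt
    push Not at hlt
    obtain ⟨θ, hθ, h3⟩ := (hR1 hN1).2
    obtain ⟨α, hα, β, hβ, rfl⟩ := (t2 θ).1 hθ
    apply h3
    rw [ev]
    exact Ox_add (Ox_mul hα (o4 _ _ _ hMd1 hlt).1) (Ox_mul hβ (o4 _ _ _ hMd2 hlt).1)
  have hρd : 1 ≤ M → ρ ≤ d := by
    intro hM1
    by_contra hlt
    push Not at hlt
    obtain ⟨θ, hθ, h3⟩ := (hR2 hM1).2
    obtain ⟨α, hα, β, hβ, rfl⟩ := (t2 θ).1 hθ
    apply h3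
    rw [ev]
    exact Ox_add (Ox_mul hα (o4 _ _ _ hMd1 hlt).2) (Ox_mul hβ (o4 _ _ _ hMd2 hlt).2)
  -- the blowup
  have hτ : y / x ∈ O' := by rw [div_eq_mul_inv]; exact hq.div y h.pv
  have hFX := hsum
  rw [sum_div hx0] at hG1 hG2 hFX
  set P := ∑ j ∈ Finset.range (ρ + 1), c1 j * (y / x) ^ j with hP
  set R := ∑ j ∈ Finset.range (ρ + 1), c2 j * (y / x) ^ j with hR
  set Q := ∑ j ∈ Finset.range (ρ + 1), g j * (y / x) ^ j with hQ
  have hPO : P ∈ O' := O'.sum_mem fun j _ => O'.mul_mem (hle (hc1O j)) (O'.pow_mem hτ j)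
  have hRO : R ∈ O' := O'.sum_mem fun j _ => O'.mul_mem (hle (hc2O j)) (O'.pow_mem hτ j)
  have hQO : Q ∈ O' := O'.sum_mem fun j _ => O'.mul_mem (hle (hg j)) (O'.pow_mem hτ j)
  have hPR : ρ < N + M → ∀ y', Par O' x y' → ¬ Ox O' x y' (ρ + 1) P ∨ ¬ Ox O' x y' (ρ + 1) R := by
    intro hlt y' hy'
    rcases hcase with hκ | ⟨j, hj, hgj, hnd⟩
    · omega
    by_cases hp1 : (p : ℤ) ∣ (ρ : ℤ) - j - N
    · have hp2 : ¬ (p : ℤ) ∣ (j : ℤ) - M := fun hh => hnd ⟨hp1, hh⟩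
      right
      exact hqp k E htr O O' x y y' hpt hpt' h hq hy' ρ c2 hc2O ⟨j, hj, hu2 j hgj hp2⟩
    · left
      exact hqp k E htr O O' x y y' hpt hpt' h hq hy' ρ c1 hc1O ⟨j, hj, hu1 j hj hgj hp1⟩
  set τ := y / x with hτdef
  have hτ0 : τ ≠ 0 := div_ne_zero hy0 hx0
  have hyτ : y = x * τ := by rw [hτdef]; field_simp
  have vP := mon_eq hx0 hyτ hρ hG1
  have vR := mon_eq hx0 hyτ hρ hG2
  have vQ := mon_eq hx0 hyτ hρ hFX
  refine ⟨?_, ?_⟩
  · intro y' N' c' hτi hp' hD'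
    have t6 := t5 hτi
    have hinv : τ⁻¹ ^ M * τ ^ M = 1 := by
      rw [← mul_pow, inv_mul_cancel₀ hτ0, one_pow]
    have hconv : ∀ {z Z : E}, z * (x ^ (N + M - ρ) * τ ^ M) = Z →
        z * x ^ (N + M - ρ) = τ⁻¹ ^ M * Z := by
      intro z Z hz
      rw [← hz]
      calc z * x ^ (N + M - ρ) = z * x ^ (N + M - ρ) * (τ⁻¹ ^ M * τ ^ M) := by rw [hinv, mul_one]
        _ = _ := by ring
    have wP := hconv vP
    have wR := hconv vR
    have wQ := hconv vQ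
    have hres : ∀ θ ∈ Th O' (uo O' x), θ F * x ^ (N + M - ρ) ∈ O' := by
      intro θ hθ
      obtain ⟨α, hα, β, hβ, rfl⟩ := (t6 θ).1 hθ
      rw [ev, wP, wR]
      exact O'.add_mem (O'.mul_mem hα (O'.mul_mem (O'.pow_mem hτi _) hPO))
        (O'.mul_mem hβ (O'.mul_mem (O'.pow_mem hτi _) hRO))
    have hDN : ∃ c'', DN p O' x y' f (N + M - ρ) c'' ∧ (ρ < N + M → c'' ≤ ρ) := by
      by_cases hlt : ρ < N + M
      · have hun : ∀ Z, ¬ Ox O' x y' (ρ + 1) Z → ¬ Ox O' x y' (ρ + 1) (τ⁻¹ ^ M * Z) := by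
          intro Z hZ h7
          apply hZ
          have h8 : Z = τ ^ M * (τ⁻¹ ^ M * Z) := by
            rw [← mul_assoc, mul_comm (τ ^ M), hinv, one_mul]
          rw [h8]
          exact Ox_mul (O'.pow_mem hτ _) h7
        have hex : ∃ θ ∈ Th O' (uo O' x), ¬ Ox O' x y' (ρ + 1) (θ F * x ^ (N + M - ρ)) := by
          rcases hPR hlt y' hp' with h6 | h6
          · refine ⟨x • D1, (t6 _).2 ⟨1, O'.one_mem, 0, O'.zero_mem, by simp⟩, ?_⟩
            rw [wP]; exact hun _ h6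
          · refine ⟨y • D2, (t6 _).2 ⟨0, O'.zero_mem, 1, O'.one_mem, by simp⟩, ?_⟩
            rw [wR]; exact hun _ h6
        obtain ⟨c'', hc'', hRs⟩ := exists_Rs hres hex
        refine ⟨c'', ⟨a, ?_, fun _ => hRs⟩, fun _ => hc''⟩
        rw [← hF, wQ]
        exact O'.mul_mem (O'.pow_mem hτi _) hQO
      · refine ⟨0, ⟨a, ?_, fun h0 => ?_⟩, fun h0 => absurd h0 hlt⟩
        · rw [← hF, wQ]
          exact O'.mul_mem (O'.pow_mem hτi _) hQO
        · omega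
    obtain ⟨c'', hDN'', hc''⟩ := hDN
    obtain ⟨e1, e2⟩ := (hu p k E htr O' x y' f hpt' hp').1 _ _ _ _ hD' hDN''
    refine ⟨by omega, fun h0 => ?_, fun h0 => ?_, fun h0 => ?_⟩
    · have := e2 h0
      have := hc'' (by omega)
      omega
    · have := hρc h0; omega
    · have := hρd h0; omega
  · intro N' M' c' d' hp' hD'
    have ev' : ∀ (α β Y : E), (α • (y • D2) + β • (x • D1)) F * Y =
        α * ((y • D2) F * Y) + β * ((x • D1) F * Y) := fun α β Y => by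
      simp only [Derivation.add_apply, Derivation.smul_apply, smul_eq_mul]; ring
    have hmF : x • D1 ∈ Th O' (uo O' x ∪ uo O' τ) :=
      (t4 _).2 ⟨0, O'.zero_mem, 1, O'.one_mem, by simp⟩
    have hmG : y • D2 ∈ Th O' (uo O' x ∪ uo O' τ) :=
      (t4 _).2 ⟨1, O'.one_mem, 0, O'.zero_mem, by simp⟩
    have hres : ∀ θ ∈ Th O' (uo O' x ∪ uo O' τ), θ F * (x ^ (N + M - ρ) * τ ^ M) ∈ O' := by
      intro θ hθ
      obtain ⟨α, hα, β, hβ, rfl⟩ := (t4 θ).1 hθ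
      rw [ev', vP, vR]
      exact O'.add_mem (O'.mul_mem hα hRO) (O'.mul_mem hβ hPO)
    have hRsx : ∃ c'', (1 ≤ N + M - ρ → Rs O' (uo O' x ∪ uo O' τ) x τ
        (x ^ (N + M - ρ) * τ ^ M) F c'') ∧ (ρ < N + M → c'' ≤ ρ) := by
      by_cases hlt : ρ < N + M
      · have hex : ∃ θ ∈ Th O' (uo O' x ∪ uo O' τ),
            ¬ Ox O' x τ (ρ + 1) (θ F * (x ^ (N + M - ρ) * τ ^ M)) := by
          rcases hPR hlt τ hp' with h6 | h6
          · exact ⟨x • D1, hmF, by rw [vP]; exact h6⟩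
          · exact ⟨y • D2, hmG, by rw [vR]; exact h6⟩
        obtain ⟨c'', hc'', hRs⟩ := exists_Rs hres hex
        exact ⟨c'', fun _ => hRs, fun _ => hc''⟩
      · exact ⟨0, fun h0 => by omega, fun h0 => absurd h0 hlt⟩
    have hRsτ : 1 ≤ M → Rs O' (uo O' x ∪ uo O' τ) τ x (x ^ (N + M - ρ) * τ ^ M) F (d - ρ) := by
      intro hM1
      have hdρ := hρd hM1
      have hin : ∀ Z Q', Z = x ^ ρ * Q' → Q' ∈ O' → Ox O y x d Z → Ox O' τ x (d - ρ) Q' := by
        rintro Z Q' hZQ hQ' ⟨α, hα, β, hβ, h7⟩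
        have hw : Q' - β * x ^ (d - ρ) ∈ O' :=
          O'.sub_mem hQ' (O'.mul_mem (hle hβ) (O'.pow_mem hp'.pu.mem _))
        have h8 : x ^ ρ * (Q' - β * x ^ (d - ρ)) = τ * (α * x) := by
          have h9 : x ^ ρ * (Q' - β * x ^ (d - ρ)) = x ^ ρ * Q' - β * (x ^ ρ * x ^ (d - ρ)) := by
            ring
          rw [h9, ← pow_add, Nat.add_sub_cancel' hdρ, ← hZQ, h7, hyτ]
          ring
        obtain ⟨δ, hδ, h9⟩ := reg_pow (Par_symm hp') hw (O'.mul_mem (hle hα) hp'.pu.mem) h8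
        exact ⟨δ, hδ, β, hle hβ, by rw [mul_comm δ, ← h9]; ring⟩
      have hout : ∀ Z Q', Z ∈ O → Z = x ^ ρ * Q' → ¬ Ox O y x (d + 1) Z →
          ¬ Ox O' τ x (d - ρ + 1) Q' := by
        intro Z Q' hZ hZQ hn hox
        apply hn
        refine hqs k E htr O O' y x hpt hpt' (Par_symm h) hq hp' Z hZ (d + 1) ?_
        obtain ⟨α, hα, β, hβ, h7⟩ := hox
        refine ⟨x ^ ρ * α, O'.mul_mem (O'.pow_mem hp'.pu.mem ρ) hα, β, hβ, ?_⟩
        rw [hZQ, h7]
        have : d + 1 = ρ + (d - ρ + 1) := by omega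
        rw [this, pow_add]
        ring
      obtain ⟨g1, g2⟩ := hR2 hM1
      have g11 := g1 _ hm1
      have g12 := g1 _ hm2
      refine ⟨?_, ?_⟩
      · intro θ hθ
        obtain ⟨α, hα, β, hβ, rfl⟩ := (t4 θ).1 hθ
        rw [ev', vP, vR]
        exact Ox_add (Ox_mul hα (hin _ _ hG2 hRO g12)) (Ox_mul hβ (hin _ _ hG1 hPO g11))
      · have h2 : ¬ Ox O y x (d + 1) ((x • D1) F * X) ∨ ¬ Ox O y x (d + 1) ((y • D2) F * X) := by
          by_contra hcon
          push Not at hcon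
          obtain ⟨θ, hθ, h3⟩ := g2
          obtain ⟨α, hα, β, hβ, rfl⟩ := (t2 θ).1 hθ
          apply h3
          rw [ev]
          exact Ox_add (Ox_mul hα hcon.1) (Ox_mul hβ hcon.2)
        rcases h2 with h6 | h6
        · exact ⟨x • D1, hmF, by rw [vP]; exact hout _ _ (Ox_mem hy hx g11) hG1 h6⟩
        · exact ⟨y • D2, hmG, by rw [vR]; exact hout _ _ (Ox_mem hy hx g12) hG2 h6⟩
    obtain ⟨c'', hRsx', hc''⟩ := hRsx
    have hDC'' : DC p O' x τ f (N + M - ρ) M c'' (d - ρ) :=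
      ⟨a, by rw [← hF, vQ]; exact hQO, hRsx', hRsτ⟩
    obtain ⟨e1, e2, e3, e4⟩ := (hu p k E htr O' x τ f hpt' hp').2.1 _ _ _ _ _ _ _ _ hD' hDC''
    refine ⟨e2, by omega, fun h0 => ?_, fun h0 => ?_, fun h0 => ?_⟩
    · have := e3 h0
      have := hc'' (by omega)
      omega
    · have := hρc h0; omega
    · have := hρd h0
      have := e4 (by omega)
      omega

end Pool.Agent.W347.WA
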